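import Pool.Agent.R85.KF.Stab
import Pool.Agent.R85.KF.T3Fin
import Pool.Agent.R85.KF.T5Fin
import Pool.Agent.R85.KF.T6Fin
import Pool.Agent.R85.KF.T7Fin
import Pool.Agent.R85.KF.U0Fin
import Pool.Agent.R85.KF.U1Fin
import Pool.Agent.R85.KF.U2Fin
import Pool.Agent.R85.KF.U3Fin

/-! Stability for the four numbers of copies. -/

set_option autoImplicit false
set_option maxRecDepth 100000
set_option maxHeartbeats 4000000
open Finset
open scoped Classical

namespace Pool.Agent.R85.KF
open Pool.Agent.H122R2.N6 Pool.Agent.H37R3.Pen Pool.Agent.H37R3.K5 Pool.Agent.Y580.FL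
open Pool.Agent.R85.GT (cd5 TE S5 NF sbn homs homs_eq code NF_eq_card sbn_le noninj el chkO chkO_NF
  L1 O32 NF_edge)
open Pool.Agent.TH773.ST (NT bad)

theorem comb {V : Type} [Fintype V] {E : V → V → V → ℕ} {A R s K W D : ℕ} (hs : 0 < s)
    (h : A * (Fintype.card V * W) + s * NT E ≤ R * (Fintype.card V) ^ 6)
    (hA : R * (Fintype.card V) ^ 5 ≤ A * W + s * (K * D)) :
    NT E ≤ K * (Fintype.card V * D) := by
  generalize Fintype.card V = n at h hA ⊢
  generalize NT E = N at h ⊢
  have h1 := Nat.mul_le_mul_left n hA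
  have h2 : n * (R * n ^ 5) = R * n ^ 6 := by ring
  have h3 : n * (A * W + s * (K * D)) = A * (n * W) + s * (K * (n * D)) := by ring
  rw [h2, h3] at h1
  have h4 : s * N ≤ s * (K * (n * D)) := by omega
  exact Nat.le_of_mul_le_mul_left h4 hs

theorem pos_part {V : Type} [Fintype V] {E : V → V → V → ℕ} {A R s W : ℕ}
    (hn : 0 < Fintype.card V)
    (h : A * (Fintype.card V * W) + s * NT E ≤ R * (Fintype.card V) ^ 6) :
    A * W ≤ R * (Fintype.card V) ^ 5 := by
  generalize Fintype.card V = n at h hn ⊢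
  generalize NT E = N at h
  have h1 : n * (A * W) ≤ n * (R * n ^ 5) := by
    calc n * (A * W) = A * (n * W) := by ring
      _ ≤ A * (n * W) + s * N := Nat.le_add_right _ _
      _ ≤ R * n ^ 6 := h
      _ = n * (R * n ^ 5) := by ring
  exact Nat.le_of_mul_le_mul_left h1 hn

theorem OU725 : chkO 725 0xd1f39cdadab56ab7b1e36747e 10 = true := by decide +kernel
theorem TT725 : chkT T6.tab 180 720 0xd1f39cdadab56ab7b1e36747e 10 = true := by decide +kernel
theorem TU725 : chkU U0.tab 27 1890 0xd1f39cdadab56ab7b1e36747e 10 = true := by decide +kernel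

theorem q725 {V : Type} [Fintype V] {E : V → V → V → ℕ} (hE : Sy E) (hK : NoK4 E)
    (hn : 0 < Fintype.card V) : 243 * NF E 725 ≤ 12 * (Fintype.card V) ^ 5 := by
  have h := U0.main hE hK
  have hu := S5_tabU hE hK OU725 TU725
  have ht := T6.main hE hK
  rw [S5_tab hE hK OU725 TT725] at ht
  have hp := pos_part hn h
  omega

theorem stab725 {V : Type} [Fintype V] {E : V → V → V → ℕ} (hE : Sy E) (hK : NoK4 E)
    (hn : 0 < Fintype.card V) : ∃ g : V → Fin 3, (Fintype.card V) ^ 2 * bad E g ≤
      645120 * 2 * (12 * (Fintype.card V) ^ 5 - 243 * NF E 725) := by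
  have h := U0.main hE hK
  have hu := S5_tabU hE hK OU725 TU725
  have hr := q725 hE hK hn
  have ht := T6.main hE hK
  rw [S5_tab hE hK OU725 TT725] at ht
  have hp := pos_part hn h
  generalize hP : (Fintype.card V) ^ 5 = P at hu hr ht hp
  generalize hX : NF E 32 = X at hu ht
  generalize hY : NF E 725 = Y at hu hr ht
  refine stab_gen hE hK hn (comb (by norm_num) h ?_) ?_
  · rw [hP]
    omega
  · rw [hP, hX]
    intro hc
    omega

theorem OU355 : chkO 355 0xd1b45d0f38cd332cc729c9b19c5b07b62d4b4ad1b2ac5aaaa9a8e9aa568b96a5591e398da2b7a1e4789e1731c36b1a3671996558d5b16351d394d91d3b0e3368d52ac9d1f07a1d86e1783e 60 = true := by decide +kernel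
theorem TT355 : chkT T7.tab 100 150 0xd1b45d0f38cd332cc729c9b19c5b07b62d4b4ad1b2ac5aaaa9a8e9aa568b96a5591e398da2b7a1e4789e1731c36b1a3671996558d5b16351d394d91d3b0e3368d52ac9d1f07a1d86e1783e 60 = true := by decide +kernel
theorem TU355 : chkU U1.tab 12 240 0xd1b45d0f38cd332cc729c9b19c5b07b62d4b4ad1b2ac5aaaa9a8e9aa568b96a5591e398da2b7a1e4789e1731c36b1a3671996558d5b16351d394d91d3b0e3368d52ac9d1f07a1d86e1783e 60 = true := by decide +kernel

theorem q355 {V : Type} [Fintype V] {E : V → V → V → ℕ} (hE : Sy E) (hK : NoK4 E)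
    (hn : 0 < Fintype.card V) : 243 * NF E 355 ≤ 15 * (Fintype.card V) ^ 5 := by
  have h := U1.main hE hK
  have hu := S5_tabU hE hK OU355 TU355
  have ht := T7.main hE hK
  rw [S5_tab hE hK OU355 TT355] at ht
  have hp := pos_part hn h
  omega

theorem stab355 {V : Type} [Fintype V] {E : V → V → V → ℕ} (hE : Sy E) (hK : NoK4 E)
    (hn : 0 < Fintype.card V) : ∃ g : V → Fin 3, (Fintype.card V) ^ 2 * bad E g ≤
      645120 * 4 * (15 * (Fintype.card V) ^ 5 - 243 * NF E 355) := by
  have h := U1.main hE hK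
  have hu := S5_tabU hE hK OU355 TU355
  have hr := q355 hE hK hn
  have ht := T7.main hE hK
  rw [S5_tab hE hK OU355 TT355] at ht
  have hp := pos_part hn h
  generalize hP : (Fintype.card V) ^ 5 = P at hu hr ht hp
  generalize hX : NF E 32 = X at hu ht
  generalize hY : NF E 355 = Y at hu hr ht
  refine stab_gen hE hK hn (comb (by norm_num) h ?_) ?_
  · rw [hP]
    omega
  · rw [hP, hX]
    intro hc
    omega

theorem OU553 : chkO 553 0x330c1ad0a2a458a5e063143464a32546c16836 15 = true := by decide +kernel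
theorem TT553 : chkT T3.tab 240 120 0x330c1ad0a2a458a5e063143464a32546c16836 15 = true := by decide +kernel
theorem TU553 : chkU U2.tab 45 630 0x330c1ad0a2a458a5e063143464a32546c16836 15 = true := by decide +kernel

theorem q553 {V : Type} [Fintype V] {E : V → V → V → ℕ} (hE : Sy E) (hK : NoK4 E)
    (hn : 0 < Fintype.card V) : 243 * NF E 553 ≤ 39 * (Fintype.card V) ^ 5 := by
  have h := U2.main hE hK
  have hu := S5_tabU hE hK OU553 TU553
  have ht := T3.main hE hK
  rw [S5_tab hE hK OU553 TT553] at ht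
  have hp := pos_part hn h
  omega

theorem stab553 {V : Type} [Fintype V] {E : V → V → V → ℕ} (hE : Sy E) (hK : NoK4 E)
    (hn : 0 < Fintype.card V) : ∃ g : V → Fin 3, (Fintype.card V) ^ 2 * bad E g ≤
      645120 * 1 * (39 * (Fintype.card V) ^ 5 - 243 * NF E 553) := by
  have h := U2.main hE hK
  have hu := S5_tabU hE hK OU553 TU553
  have hr := q553 hE hK hn
  have ht := T3.main hE hK
  rw [S5_tab hE hK OU553 TT553] at ht
  have hp := pos_part hn h
  generalize hP : (Fintype.card V) ^ 5 = P at hu hr ht hp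
  generalize hX : NF E 32 = X at hu ht
  generalize hY : NF E 553 = Y at hu hr ht
  refine stab_gen hE hK hn (comb (by norm_num) h ?_) ?_
  · rw [hP]
    omega
  · rw [hP, hX]
    intro hc
    omega

theorem OU76 : chkO 76 0xc8310c1302b0290a228294244906308a22182a0981a05701a0621845814250530461114310941903380d0288a1250912308a214831a064160521304a114430d0320b029098230681905815 60 = true := by decide +kernel
theorem TT76 : chkT T5.tab 168 42 0xc8310c1302b0290a228294244906308a22182a0981a05701a0621845814250530461114310941903380d0288a1250912308a214831a064160521304a114430d0320b029098230681905815 60 = true := by decide +kernel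
theorem TU76 : chkU U3.tab 36 108 0xc8310c1302b0290a228294244906308a22182a0981a05701a0621845814250530461114310941903380d0288a1250912308a214831a064160521304a114430d0320b029098230681905815 60 = true := by decide +kernel

theorem q76 {V : Type} [Fintype V] {E : V → V → V → ℕ} (hE : Sy E) (hK : NoK4 E)
    (hn : 0 < Fintype.card V) : 243 * NF E 76 ≤ 48 * (Fintype.card V) ^ 5 := by
  have h := U3.main hE hK
  have hu := S5_tabU hE hK OU76 TU76
  have ht := T5.main hE hK
  rw [S5_tab hE hK OU76 TT76] at ht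
  have hp := pos_part hn h
  omega

theorem stab76 {V : Type} [Fintype V] {E : V → V → V → ℕ} (hE : Sy E) (hK : NoK4 E)
    (hn : 0 < Fintype.card V) : ∃ g : V → Fin 3, (Fintype.card V) ^ 2 * bad E g ≤
      645120 * 1 * (48 * (Fintype.card V) ^ 5 - 243 * NF E 76) := by
  have h := U3.main hE hK
  have hu := S5_tabU hE hK OU76 TU76
  have hr := q76 hE hK hn
  have ht := T5.main hE hK
  rw [S5_tab hE hK OU76 TT76] at ht
  have hp := pos_part hn h
  generalize hP : (Fintype.card V) ^ 5 = P at hu hr ht hp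
  generalize hX : NF E 32 = X at hu ht
  generalize hY : NF E 76 = Y at hu hr ht
  refine stab_gen hE hK hn (comb (by norm_num) h ?_) ?_
  · rw [hP]
    omega
  · rw [hP, hX]
    intro hc
    omega

end Pool.Agent.R85.KF
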