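import Pool.Agent.R85.KF.Sharp

/-! From the tables to homomorphism counts, for `K_4^3`-free 3-graphs. -/

set_option autoImplicit false
set_option maxRecDepth 100000
set_option maxHeartbeats 4000000
open Finset

namespace Pool.Agent.R85.KF
open Pool.Agent.H122R2.N6 Pool.Agent.H37R3.Pen Pool.Agent.H37R3.K5 Pool.Agent.Y580.FL
open Pool.Agent.R85.GT (cd5 TE S5 NF sbn homs homs_eq code NF_eq_card sbn_le noninj el chkO chkO_NF
  L1 O32 NF_edge)

/-- the table `t` is `a` times the number of triples plus `b` times the number of copies -/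
def chkT (t : ℕ → ℕ) (a b L n : ℕ) : Bool := B2 fun b012 => B2 fun b013 => B2 fun b023 => B2 fun b123 => B2 fun b014 => B2 fun b024 => B2 fun b124 => B2 fun b034 => B2 fun b134 => B2 fun b234 =>
  or (five b012 b013 b023 b123 b014 b024 b124 b034 b134 b234)
    (Nat.beq (t (cd5 b012 b013 b023 b123 b014 b024 b124 b034 b134 b234))
      (Nat.add (Nat.mul a (nsum 10 fun k => sbn (el L1 k) (cd5 b012 b013 b023 b123 b014 b024 b124 b034 b134 b234)))
        (Nat.mul b (nsum n fun k => sbn (el L k) (cd5 b012 b013 b023 b123 b014 b024 b124 b034 b134 b234)))))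

theorem five_false {V : Type} {E : V → V → V → ℕ} (hK : NoK4 E) (a b c d e : V) :
    five (E a b c) (E a b d) (E a c d) (E b c d) (E a b e) (E a c e) (E b c e) (E a d e) (E b d e) (E c d e) = false := by
  unfold five
  rw [hK a b c d, hK a b c e, hK a b d e, hK a c d e, hK b c d e]
  rfl

theorem chkT_at {V : Type} {E : V → V → V → ℕ} (hE : Sy E) (hK : NoK4 E) {t : ℕ → ℕ}
    {a b L n : ℕ} (h : chkT t a b L n = true) (x0 x1 x2 x3 x4 : V) :
    TE t E x0 x1 x2 x3 x4 = a * ∑ k ∈ range 10, TE (sbn (el L1 k)) E x0 x1 x2 x3 x4 +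
      b * ∑ k ∈ range n, TE (sbn (el L k)) E x0 x1 x2 x3 x4 := by
  have h1 := (B2_true (B2_true (B2_true (B2_true (B2_true (B2_true (B2_true (B2_true (B2_true (B2_true h (hE.b x0 x1 x2)) (hE.b x0 x1 x3)) (hE.b x0 x2 x3)) (hE.b x1 x2 x3)) (hE.b x0 x1 x4)) (hE.b x0 x2 x4)) (hE.b x1 x2 x4)) (hE.b x0 x3 x4)) (hE.b x1 x3 x4)) (hE.b x2 x3 x4))
  have h2 := Nat.eq_of_beq_eq_true (or_false_left h1 (five_false hK x0 x1 x2 x3 x4))
  rw [nsum_eq, nsum_eq] at h2
  exact h2

section
variable {V : Type} [Fintype V] {E : V → V → V → ℕ}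

theorem S5_tab (hE : Sy E) (hK : NoK4 E) {t : ℕ → ℕ} {a b L n r : ℕ}
    (hO : chkO r L n = true) (h : chkT t a b L n = true) :
    S5 t E = a * (10 * NF E 32) + b * (n * NF E r) := by
  have h1 : ∑ k ∈ range 10, NF E (el L1 k) = 10 * NF E 32 := by
    rw [sum_congr rfl fun k hk => chkO_NF hE O32 (mem_range.mp hk), sum_const, card_range,
      smul_eq_mul]
  have h2 : ∑ k ∈ range n, NF E (el L k) = n * NF E r := by
    rw [sum_congr rfl fun k hk => chkO_NF hE hO (mem_range.mp hk), sum_const, card_range,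
      smul_eq_mul]
  rw [← h1, ← h2]
  unfold NF S5
  rw [sum_comm, sum_comm (s := range n), mul_sum, mul_sum, ← sum_add_distrib]
  exact sum_congr rfl fun x _ => chkT_at hE hK h _ _ _ _ _

end

end Pool.Agent.R85.KF
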