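import Pool.Agent.R85.GT.Sharp
import Pool.Agent.R85.KF.Base
import Pool.Agent.H122R2.K5.Lower4

/-! Turán's 3-graph with three parts, and the two counting functions. -/

set_option autoImplicit false
set_option maxRecDepth 100000
set_option maxHeartbeats 4000000
open Finset

namespace Pool.Agent.R85.KF
open Pool.Agent.H122R2.N6 Pool.Agent.H37R3.Pen Pool.Agent.H37R3.K5 Pool.Agent.Y580.FL
open Pool.Agent.H122R2.K5
open Pool.Agent.R85.GT (cd5 TE S5 NF sbn homs homs_eq code NF_eq_card sbn_le noninj)

/-- the colour of a vertex -/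
def clr (n : ℕ) (v : Fin n) : Fin 3 := ⟨v.val % 3, Nat.mod_lt _ (by norm_num)⟩

/-- the triples of Turán's pattern -/
def tp (a b c : Fin 3) : ℕ :=
  if (a ≠ b ∧ b ≠ c ∧ a ≠ c) ∨ (a = b ∧ c = a + 1) ∨ (a = c ∧ b = a + 1) ∨ (b = c ∧ a = b + 1)
    then 1 else 0

theorem tp_sy : Sy tp where
  b := by intro x y z; unfold tp Bt; split_ifs <;> simp
  h213 := by decide
  h132 := by decide

theorem fiber (m : ℕ) (c : Fin 5 → Fin 3) :
    (univ.filter fun x : Fin 5 → Fin (3 * m) => (fun i => clr (3 * m) (x i)) = c).card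
      = m ^ 5 := by
  have h : (univ.filter fun x : Fin 5 → Fin (3 * m) => (fun i => clr (3 * m) (x i)) = c) =
      Fintype.piFinset fun i => Pt (n := 3 * m) (c i).val := by
    ext x
    rw [mem_filter, Fintype.mem_piFinset]
    simp only [mem_univ, true_and]
    have key : ∀ i, (clr (3 * m) (x i) = c i ↔ x i ∈ Pt (n := 3 * m) (c i).val) := by
      intro i
      unfold clr Pt
      rw [mem_filter, Fin.ext_iff]
      simp
    constructor
    · intro hx i
      exact (key i).mp (congrFun hx i)
    · intro hx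
      funext i
      exact (key i).mpr (hx i)
  rw [h, Fintype.card_piFinset]
  have h2 : ∀ i : Fin 5, (Pt (n := 3 * m) (c i).val).card = m := fun i => card_Pt m _ (c i).isLt
  simp only [h2, prod_const, card_univ, Fintype.card_fin]

theorem NF_col (m f : ℕ) :
    NF (fun a b c : Fin (3 * m) => tp (clr (3 * m) a) (clr (3 * m) b) (clr (3 * m) c)) f =
      m ^ 5 * NF tp f := by
  unfold NF S5
  have h1 : ∀ x : Fin 5 → Fin (3 * m),
      TE (sbn f) (fun a b c : Fin (3 * m) => tp (clr (3 * m) a) (clr (3 * m) b) (clr (3 * m) c))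
        (x 0) (x 1) (x 2) (x 3) (x 4) =
      (fun c : Fin 5 → Fin 3 => TE (sbn f) tp (c 0) (c 1) (c 2) (c 3) (c 4))
        (fun i => clr (3 * m) (x i)) := fun x => rfl
  rw [sum_congr rfl fun x _ => h1 x, ← sum_fiberwise (s := univ)
    (g := fun x : Fin 5 → Fin (3 * m) => fun i => clr (3 * m) (x i)), mul_sum]
  refine sum_congr rfl fun c _ => ?_
  rw [sum_congr rfl (g := fun _ => (fun c : Fin 5 → Fin 3 => TE (sbn f) tp (c 0) (c 1) (c 2) (c 3) (c 4)) c)
    (fun x hx => by rw [(mem_filter.mp hx).2]), sum_const, fiber, smul_eq_mul]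

theorem cnt_three {n : ℕ} (k : ℕ) {a b c : Fin n} (hab : a ≠ b) (hac : a ≠ c) (hbc : b ≠ c) :
    cnt k ({a, b, c} : Finset (Fin n)) = (if c.val % 3 = k then 1 else 0) +
      (if b.val % 3 = k then 1 else 0) + (if a.val % 3 = k then 1 else 0) := by
  have h0 : cnt k ({c} : Finset (Fin n)) = (if c.val % 3 = k then 1 else 0) := by
    unfold cnt
    rw [filter_singleton]
    split_ifs <;> simp
  have h1 : b ∉ ({c} : Finset (Fin n)) := by simpa using hbc
  have h2 : a ∉ ({b, c} : Finset (Fin n)) := by simp [hab, hac]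
  rw [cnt_insert k _ a h2, cnt_insert k _ b h1, h0]

theorem al_key : ∀ p q r : Fin 3,
    Al ((if r.val = 0 then 1 else 0) + (if q.val = 0 then 1 else 0) + (if p.val = 0 then 1 else 0))
      ((if r.val = 1 then 1 else 0) + (if q.val = 1 then 1 else 0) + (if p.val = 1 then 1 else 0))
      ((if r.val = 2 then 1 else 0) + (if q.val = 2 then 1 else 0) + (if p.val = 2 then 1 else 0)) ↔
    ((p ≠ q ∧ q ≠ r ∧ p ≠ r) ∨ (p = q ∧ r = p + 1) ∨ (p = r ∧ q = p + 1) ∨ (q = r ∧ p = q + 1)) := by
  unfold Al
  decide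

theorem tri_tur (n : ℕ) {a b c : Fin n} (hab : a ≠ b) (hac : a ≠ c) (hbc : b ≠ c) :
    tri (tur n) a b c = tp (clr n a) (clr n b) (clr n c) := by
  classical
  have h3 : ({a, b, c} : Finset (Fin n)).card = 3 := card_eq_three.mpr ⟨a, b, c, hab, hac, hbc, rfl⟩
  have h : ({a, b, c} : Finset (Fin n)) ∈ tur n ↔
      Al (cnt 0 ({a, b, c} : Finset (Fin n))) (cnt 1 ({a, b, c} : Finset (Fin n)))
        (cnt 2 ({a, b, c} : Finset (Fin n))) := by
    unfold tur
    rw [mem_filter, mem_powersetCard]
    simp only [h3, subset_univ, and_self, true_and]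
  rw [Pool.Agent.R85.GT.tri_eq]
  unfold tp
  refine if_congr ?_ rfl rfl
  rw [h, cnt_three 0 hab hac hbc, cnt_three 1 hab hac hbc, cnt_three 2 hab hac hbc]
  exact al_key (clr n a) (clr n b) (clr n c)

theorem NF_tur (m f : ℕ) : m ^ 5 * NF tp f ≤ NF (tri (tur (3 * m))) f + 810 * m ^ 4 := by
  rw [← NF_col]
  have h := noninj (3 * m)
  have h1 : NF (fun a b c : Fin (3 * m) => tp (clr (3 * m) a) (clr (3 * m) b) (clr (3 * m) c)) f
      ≤ NF (tri (tur (3 * m))) f +
        (univ.filter fun x : Fin 5 → Fin (3 * m) => ¬ Function.Injective x).card := by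
    rw [card_filter]
    unfold NF S5
    rw [← sum_add_distrib]
    refine sum_le_sum fun x _ => ?_
    by_cases hi : Function.Injective x
    · have ne : ∀ i j : Fin 5, i ≠ j → x i ≠ x j := fun i j hij he => hij (hi he)
      have e : ∀ i j k : Fin 5, i ≠ j → i ≠ k → j ≠ k →
          tri (tur (3 * m)) (x i) (x j) (x k) =
            tp (clr (3 * m) (x i)) (clr (3 * m) (x j)) (clr (3 * m) (x k)) :=
        fun i j k hij hik hjk => tri_tur _ (ne i j hij) (ne i k hik) (ne j k hjk)
      unfold TE
      rw [e 0 1 2 (by decide) (by decide) (by decide), e 0 1 3 (by decide) (by decide) (by decide),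
        e 0 2 3 (by decide) (by decide) (by decide), e 1 2 3 (by decide) (by decide) (by decide),
        e 0 1 4 (by decide) (by decide) (by decide), e 0 2 4 (by decide) (by decide) (by decide),
        e 1 2 4 (by decide) (by decide) (by decide), e 0 3 4 (by decide) (by decide) (by decide),
        e 1 3 4 (by decide) (by decide) (by decide), e 2 3 4 (by decide) (by decide) (by decide)]
      exact Nat.le_add_right _ _
    · rw [if_pos hi]
      exact (sbn_le _ _).trans (Nat.le_add_left _ _)
  have h2 : 10 * (3 * m) ^ 4 = 810 * m ^ 4 := by ring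
  omega

/-- the three vertices of `e` have three colours, or two have a colour and the third the next one -/
def TT (c : Fin 5 → Fin 3) (e : Finset (Fin 5)) : Prop :=
  (∀ i : Fin 3, (e.filter fun v => c v = i).card = 1) ∨
    ∃ i : Fin 3, (e.filter fun v => c v = i).card = 2 ∧ (e.filter fun v => c v = i + 1).card = 1

instance (c : Fin 5 → Fin 3) : DecidablePred (TT c) := fun e => by unfold TT; infer_instance

/-- colourings of the five vertices following Turán's pattern -/
def colourings (F : Finset (Finset (Fin 5))) : ℕ :=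
  (univ.filter fun c : Fin 5 → Fin 3 => ∀ e ∈ F, TT c e).card

theorem fil_three (c : Fin 5 → Fin 3) (i : Fin 3) {a b d : Fin 5} (hab : a ≠ b) (had : a ≠ d)
    (hbd : b ≠ d) : ((({a, b, d} : Finset (Fin 5)).filter fun v => c v = i).card) =
      (if c a = i then 1 else 0) + ((if c b = i then 1 else 0) + (if c d = i then 1 else 0)) := by
  rw [card_filter, sum_insert (by simp [hab, had]), sum_insert (by simp [hbd]), sum_singleton]

theorem tp_key : ∀ p q r : Fin 3, ((p ≠ q ∧ q ≠ r ∧ p ≠ r) ∨ (p = q ∧ r = p + 1) ∨ (p = r ∧ q = p + 1) ∨ (q = r ∧ p = q + 1)) ↔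
    ((∀ i : Fin 3, ((if p = i then 1 else 0) + ((if q = i then 1 else 0) + (if r = i then 1 else 0)) : ℕ) = 1) ∨
    ∃ i : Fin 3, ((if p = i then 1 else 0) + ((if q = i then 1 else 0) + (if r = i then 1 else 0)) : ℕ) = 2 ∧
      ((if p = i + 1 then 1 else 0) + ((if q = i + 1 then 1 else 0) + (if r = i + 1 then 1 else 0)) : ℕ) = 1) := by
  decide

theorem tp_if (c : Fin 5 → Fin 3) {i j k : Fin 5} (hij : i ≠ j) (hik : i ≠ k) (hjk : j ≠ k) :
    tp (c i) (c j) (c k) = if TT c ({i, j, k} : Finset (Fin 5)) then 1 else 0 := by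
  unfold tp
  refine if_congr ?_ rfl rfl
  unfold TT
  simp only [fil_three c _ hij hik hjk]
  exact tp_key (c i) (c j) (c k)

theorem colourings_eq {F : Finset (Finset (Fin 5))} (h3 : ∀ e ∈ F, e.card = 3) :
    colourings F = NF tp (code F) :=
  (NF_eq_card tp_sy h3 (fun c e => TT c e)
    (fun x => tp_if x (by decide) (by decide) (by decide)) (fun x => tp_if x (by decide) (by decide) (by decide))
    (fun x => tp_if x (by decide) (by decide) (by decide)) (fun x => tp_if x (by decide) (by decide) (by decide))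
    (fun x => tp_if x (by decide) (by decide) (by decide)) (fun x => tp_if x (by decide) (by decide) (by decide))
    (fun x => tp_if x (by decide) (by decide) (by decide)) (fun x => tp_if x (by decide) (by decide) (by decide))
    (fun x => tp_if x (by decide) (by decide) (by decide)) (fun x => tp_if x (by decide) (by decide) (by decide))).symm

theorem lower {F : Finset (Finset (Fin 5))} (h3 : ∀ e ∈ F, e.card = 3) (m : ℕ) :
    colourings F * m ^ 5 ≤ homs F (tur (3 * m)) + 810 * m ^ 4 := by
  rw [homs_eq h3, colourings_eq h3, mul_comm]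
  exact NF_tur m _

end Pool.Agent.R85.KF
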