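import Pool.Agent.R85.KF.Base
import Pool.Agent.TH773.ST.ComT
import Pool.Agent.TH773.ST.Avg

/-! Six-vertex flags for `K_4^3`-free 3-graphs, with a general right side and a slack for the
structures which do not occur in Turán's construction. -/

set_option autoImplicit false
set_option maxRecDepth 100000
set_option maxHeartbeats 4000000
open Finset
open scoped Classical

namespace Pool.Agent.R85.KF
open Pool.Agent.H122R2.N6 Pool.Agent.H37R3.Pen Pool.Agent.H37R3.Cop Pool.Agent.H37R3.CopL Pool.Agent.Y580.FL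
open Pool.Agent.TH773.ST (MT NT TT_of_rel)

/-- the leaf inequality with the right side `Z`: slack `s` in general, no slack for the structures
of `LT` -/
def chkZS (q4 : ℕ → ℕ → ℕ → ℕ) (q2 : ℕ → ℕ → ℕ) (Z : ℕ → ℕ → ℕ → ℕ → ℕ → ℕ → ℕ → ℕ → ℕ → ℕ → ℕ → ℕ → ℕ → ℕ → ℕ → ℕ → ℕ → ℕ → ℕ → ℕ → ℕ) (s : ℕ) (LT : List ℕ) (b012 b013 b023 b123 b014 b024 b124 b034 b134 b234 : ℕ) : Bool :=
  B2 fun b015 => B2 fun b025 => B2 fun b125 => or (k4b b012 b015 b025 b125) (B2 fun b035 => B2 fun b135 => or (k4b b013 b015 b035 b135) (B2 fun b235 => or (k4b b023 b025 b035 b235) (or (k4b b123 b125 b135 b235) (B2 fun b045 => B2 fun b145 => or (k4b b014 b015 b045 b145) (B2 fun b245 => or (k4b b024 b025 b045 b245) (or (k4b b124 b125 b145 b245) (B2 fun b345 => or (k4b b034 b035 b045 b345) (or (k4b b134 b135 b145 b345) (or (k4b b234 b235 b245 b345) (or (Nat.ble (Nat.add (Nat.add (leaf4 q4 b012 b013 b023 b123 b014 b024 b124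 b034 b134 b234 b015 b025 b125 b035 b135 b235 b045 b145 b245 b345) (leaf2 q2 b012 b013 b023 b123 b014 b024 b124 b034 b134 b234 b015 b025 b125 b035 b135 b235 b045 b145 b245 b345)) s) (Z b012 b013 b023 b123 b014 b024 b124 b034 b134 b234 b015 b025 b125 b035 b135 b235 b045 b145 b245 b345)) (and (mem LT b012 b013 b023 b123 b014 b024 b124 b034 b134 b234 b015 b025 b125 b035 b135 b235 b045 b145 b245 b345) (Nat.ble (Nat.add (leaf4 q4 b012 b013 b023 b123 b014 b024 b124 b034 b134 b234 b015 b025 b125 b035 b135 b235 b045 b145 b245 b345) (leaf2 q2 b012 b013 b023 b123 b014 b024 b124 b034 b134 b234 b015 b025 b125 b035 b135 b235 b045 b145 b245 b345)) (Z b012 b013 b023 b123 b014 b024 b124 b034 b134 b234 b015 b025 b125 b035 b135 b235 b045 b145 b245 b345)))))))))))))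

section
variable {V : Type} {E : V → V → V → ℕ}

theorem chkZS_sound (hE : Sy E) (hK : NoK4 E) {q4 : ℕ → ℕ → ℕ → ℕ} {q2 : ℕ → ℕ → ℕ}
    {Z : ℕ → ℕ → ℕ → ℕ → ℕ → ℕ → ℕ → ℕ → ℕ → ℕ → ℕ → ℕ → ℕ → ℕ → ℕ → ℕ → ℕ → ℕ → ℕ → ℕ → ℕ} {s : ℕ} {LT : List ℕ} {Y : V → V → V → V → V → V → ℕ} (a b c d e f : V)
    (hT : mem LT (E a b c) (E a b d) (E a c d) (E b c d) (E a b e) (E a c e) (E b c e) (E a d e) (E b d e) (E c d e) (E a b f) (E a c f) (E b c f) (E a d f) (E b d f) (E c d f) (E a e f) (E b e f) (E c e f) (E d e f) = true → Y a b c d e f = 1)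
    (h : chkZS q4 q2 Z s LT (E a b c) (E a b d) (E a c d) (E b c d) (E a b e) (E a c e) (E b c e) (E a d e) (E b d e) (E c d e) = true) :
    K4l E q4 a b c d e f + K2l E q2 a b c d e f ≤ ZE E Z a b c d e f + s * Y a b c d e f - s := by
  have h1 := (or_false_left (or_false_left (or_false_left (B2_true (or_false_left (or_false_left (B2_true (or_false_left (B2_true (B2_true (or_false_left (or_false_left (B2_true (or_false_left (B2_true (B2_true (or_false_left (B2_true (B2_true (B2_true h (hE.b a b f)) (hE.b a c f)) (hE.b b c f)) (hK a b c f)) (hE.b a d f)) (hE.b b d f)) (hK a b d f)) (hE.b c d f)) (hK a c d f)) (hK b c d f)) (hE.b a e f)) (hE.b b e f)) (hK a b e f)) (hE.b c e f)) (hK a c e f)) (hK b c e f)) (hE.b d e f)) (hK a d e f)) (hK b d e f)) (hK c d e f))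
  rw [Bool.or_eq_true, Bool.and_eq_true] at h1
  have hKL : K4l E q4 a b c d e f + K2l E q2 a b c d e f =
    Nat.add (leaf4 q4 (E a b c) (E a b d) (E a c d) (E b c d) (E a b e) (E a c e) (E b c e) (E a d e) (E b d e) (E c d e) (E a b f) (E a c f) (E b c f) (E a d f) (E b d f) (E c d f) (E a e f) (E b e f) (E c e f) (E d e f)) (leaf2 q2 (E a b c) (E a b d) (E a c d) (E b c d) (E a b e) (E a c e) (E b c e) (E a d e) (E b d e) (E c d e) (E a b f) (E a c f) (E b c f) (E a d f) (E b d f) (E c d f) (E a e f) (E b e f) (E c e f) (E d e f)) := rfl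
  have hZ : ZE E Z a b c d e f = Z (E a b c) (E a b d) (E a c d) (E b c d) (E a b e) (E a c e) (E b c e) (E a d e) (E b d e) (E c d e) (E a b f) (E a c f) (E b c f) (E a d f) (E b d f) (E c d f) (E a e f) (E b e f) (E c e f) (E d e f) := rfl
  rw [hKL, hZ]
  generalize hL : Nat.add (leaf4 q4 (E a b c) (E a b d) (E a c d) (E b c d) (E a b e) (E a c e) (E b c e) (E a d e) (E b d e) (E c d e) (E a b f) (E a c f) (E b c f) (E a d f) (E b d f) (E c d f) (E a e f) (E b e f) (E c e f) (E d e f)) (leaf2 q2 (E a b c) (E a b d) (E a c d) (E b c d) (E a b e) (E a c e) (E b c e) (E a d e) (E b d e) (E c d e) (E a b f) (E a c f) (E b c f) (E a d f) (E b d f) (E c d f) (E a e f) (E b e f) (E c e f) (E d e f)) = L at h1 ⊢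
  generalize hW : Z (E a b c) (E a b d) (E a c d) (E b c d) (E a b e) (E a c e) (E b c e) (E a d e) (E b d e) (E c d e) (E a b f) (E a c f) (E b c f) (E a d f) (E b d f) (E c d f) (E a e f) (E b e f) (E c e f) (E d e f) = W at h1 ⊢
  rcases h1 with h1 | h1
  · have h2 : L + s ≤ W := Nat.le_of_ble_eq_true h1
    have h3 : 0 ≤ s * Y a b c d e f := Nat.zero_le _
    omega
  · have h2 : L ≤ W := Nat.le_of_ble_eq_true h1.2
    rw [hT h1.1, mul_one]
    omega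

theorem leafZS_all (hE : Sy E) (hK : NoK4 E) {q4 : ℕ → ℕ → ℕ → ℕ} {q2 : ℕ → ℕ → ℕ}
    {Z : ℕ → ℕ → ℕ → ℕ → ℕ → ℕ → ℕ → ℕ → ℕ → ℕ → ℕ → ℕ → ℕ → ℕ → ℕ → ℕ → ℕ → ℕ → ℕ → ℕ → ℕ} {s : ℕ} {LT MT : List ℕ} {TbT : List (ℕ × ℕ × ℕ)}
    (iT : isoM LT TbT MT = true)
    (hX0 : ∀ a b c d e f, ZE E Z b a c d e f = ZE E Z a b c d e f)
    (hX1 : ∀ a b c d e f, ZE E Z a c b d e f = ZE E Z a b c d e f)
    (hX2 : ∀ a b c d e f, ZE E Z a b d c e f = ZE E Z a b c d e f)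
    (hX3 : ∀ a b c d e f, ZE E Z a b c e d f = ZE E Z a b c d e f)
    (hs4 : sym4 q4 = true) (hs2 : sym2 q2 = true)
    (hc : ∀ b012 b013 b023 b123 b014 b024 b124 b034 b134 b234 : ℕ, Bt b012 → Bt b013 → Bt b023 → Bt b123 → Bt b014 → Bt b024 → Bt b124 → Bt b034 → Bt b134 → Bt b234 → tg b012 b013 b023 b123 b014 b024 b124 b034 b134 b234 = 4 → chkZS q4 q2 Z s LT b012 b013 b023 b123 b014 b024 b124 b034 b134 b234 = true)
    (a b c d e f : V) : L4 E q4 a b c d e f + L2 E q2 a b c d e f ≤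
      ZE E Z a b c d e f + s * XL6 E MT a b c d e f - s := by
  have h := (B2_true (B2_true (B2_true (B2_true (B2_true (B2_true (B2_true (B2_true (B2_true (B2_true walk_all (hE.b a b c)) (hE.b a b d)) (hE.b a c d)) (hE.b b c d)) (hE.b a b e)) (hE.b a c e)) (hE.b b c e)) (hE.b a d e)) (hE.b b d e)) (hE.b c d e))
  have h5 : five (E a b c) (E a b d) (E a c d) (E b c d) (E a b e) (E a c e) (E b c e) (E a d e) (E b d e) (E c d e) = false := by
    unfold five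
    rw [hK a b c d, hK a b c e, hK a b d e, hK a c d e, hK b c d e]
    rfl
  have hw := or_false_left h h5
  have h9 : ∀ t : ℕ, 0 + 1 * t = t := fun t => by rw [Nat.zero_add, Nat.one_mul]
  rw [← h9 (ZE E Z a b c d e f + s * XL6 E MT a b c d e f - s)]
  refine walk_goodX hE
    (X := fun a b c d e f => ZE E Z a b c d e f + s * XL6 E MT a b c d e f - s)
    (fun a b c d e f => by simp only [XL6_0, hX0]) (fun a b c d e f => by simp only [XL6_1, hX1])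
    (fun a b c d e f => by simp only [XL6_2, hX2]) (fun a b c d e f => by simp only [XL6_3, hX3]) hs4 hs2
    (C := 0) (P := 1) ?_ _ _ _ _ _ _ _ _ _ _ _ hw a b c d e f rfl rfl rfl rfl rfl rfl rfl rfl rfl rfl
  intro b012 b013 b023 b123 b014 b024 b124 b034 b134 b234 ht a b c d e f h0 h1 h2 h3 h4 h5 h6 h7 h8 h9
  subst h0 h1 h2 h3 h4 h5 h6 h7 h8 h9
  have h := hc _ _ _ _ _ _ _ _ _ _ (hE.b _ _ _) (hE.b _ _ _) (hE.b _ _ _) (hE.b _ _ _) (hE.b _ _ _) (hE.b _ _ _) (hE.b _ _ _) (hE.b _ _ _) (hE.b _ _ _) (hE.b _ _ _) ht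
  have h2 := chkZS_sound (Y := XL6 E MT) hE hK a b c d e f (hmemL_of hE iT a b c d e f) h
  rw [K4l_eq E q4 hE.h132 hE.h231 hE.h213 hE.h312, K2l_eq E q2 hE.h132 hE.h231 hE.h213 hE.h312] at h2
  rw [Nat.zero_add, Nat.one_mul]
  exact h2

end

section
variable {V : Type} [Fintype V]

theorem conclS (tab : ℕ → ℕ) (E : V → V → V → ℕ) (hE : Sy E) (G C R s : ℕ)
    (htab : ∀ c, tab c ≤ 2048)
    (hG : G * 12288 + s ≤ C) (hC : C = 60 * 4398046511104 + R)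
    (hb : (15 * 4398046511104 + 45 * 4398046511104) * (Fintype.card V : ℤ) ^ 6 ≤
      ∑ x : Fin 6 → V, ((ZE E (Pool.Agent.R85.GT.ZT tab G C) (x 0) (x 1) (x 2) (x 3) (x 4) (x 5) +
        s * XL6 E MT (x 0) (x 1) (x 2) (x 3) (x 4) (x 5) - s : ℕ) : ℤ)) :
    6 * G * (Fintype.card V * Pool.Agent.R85.GT.S5 tab E) + s * NT E ≤ R * (Fintype.card V) ^ 6 := by
  have h1 : ∀ x : Fin 6 → V, ((ZE E (Pool.Agent.R85.GT.ZT tab G C) (x 0) (x 1) (x 2) (x 3) (x 4) (x 5) +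
        s * XL6 E MT (x 0) (x 1) (x 2) (x 3) (x 4) (x 5) - s : ℕ) : ℤ) =
      (((C : ℤ) - s) - (G : ℤ) * ((Pool.Agent.R85.GT.S6 tab E (x 0) (x 1) (x 2) (x 3) (x 4) (x 5) : ℕ) : ℤ)) +
        (s : ℤ) * (XL E MT x : ℤ) := by
    intro x
    rw [Pool.Agent.R85.GT.ZE_eq, XL_eq]
    have h2 : Pool.Agent.R85.GT.S6 tab E (x 0) (x 1) (x 2) (x 3) (x 4) (x 5) ≤ 12288 := by
      unfold Pool.Agent.R85.GT.S6 Pool.Agent.R85.GT.TE
      have := fun c => htab c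
      have t0 := this (Pool.Agent.R85.GT.cd5 (E (x 0) (x 1) (x 2)) (E (x 0) (x 1) (x 3)) (E (x 0) (x 2) (x 3)) (E (x 1) (x 2) (x 3)) (E (x 0) (x 1) (x 4)) (E (x 0) (x 2) (x 4)) (E (x 1) (x 2) (x 4)) (E (x 0) (x 3) (x 4)) (E (x 1) (x 3) (x 4)) (E (x 2) (x 3) (x 4)))
      have t1 := this (Pool.Agent.R85.GT.cd5 (E (x 0) (x 1) (x 2)) (E (x 0) (x 1) (x 3)) (E (x 0) (x 2) (x 3)) (E (x 1) (x 2) (x 3)) (E (x 0) (x 1) (x 5)) (E (x 0) (x 2) (x 5)) (E (x 1) (x 2) (x 5)) (E (x 0) (x 3) (x 5)) (E (x 1) (x 3) (x 5)) (E (x 2) (x 3) (x 5)))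
      have t2 := this (Pool.Agent.R85.GT.cd5 (E (x 0) (x 1) (x 2)) (E (x 0) (x 1) (x 4)) (E (x 0) (x 2) (x 4)) (E (x 1) (x 2) (x 4)) (E (x 0) (x 1) (x 5)) (E (x 0) (x 2) (x 5)) (E (x 1) (x 2) (x 5)) (E (x 0) (x 4) (x 5)) (E (x 1) (x 4) (x 5)) (E (x 2) (x 4) (x 5)))
      have t3 := this (Pool.Agent.R85.GT.cd5 (E (x 0) (x 1) (x 3)) (E (x 0) (x 1) (x 4)) (E (x 0) (x 3) (x 4)) (E (x 1) (x 3) (x 4)) (E (x 0) (x 1) (x 5)) (E (x 0) (x 3) (x 5)) (E (x 1) (x 3) (x 5)) (E (x 0) (x 4) (x 5)) (E (x 1) (x 4) (x 5)) (E (x 3) (x 4) (x 5)))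
      have t4 := this (Pool.Agent.R85.GT.cd5 (E (x 0) (x 2) (x 3)) (E (x 0) (x 2) (x 4)) (E (x 0) (x 3) (x 4)) (E (x 2) (x 3) (x 4)) (E (x 0) (x 2) (x 5)) (E (x 0) (x 3) (x 5)) (E (x 2) (x 3) (x 5)) (E (x 0) (x 4) (x 5)) (E (x 2) (x 4) (x 5)) (E (x 3) (x 4) (x 5)))
      have t5 := this (Pool.Agent.R85.GT.cd5 (E (x 1) (x 2) (x 3)) (E (x 1) (x 2) (x 4)) (E (x 1) (x 3) (x 4)) (E (x 2) (x 3) (x 4)) (E (x 1) (x 2) (x 5)) (E (x 1) (x 3) (x 5)) (E (x 2) (x 3) (x 5)) (E (x 1) (x 4) (x 5)) (E (x 2) (x 4) (x 5)) (E (x 3) (x 4) (x 5)))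
      linarith
    have h3 : G * Pool.Agent.R85.GT.S6 tab E (x 0) (x 1) (x 2) (x 3) (x 4) (x 5) + s ≤ C :=
      (Nat.add_le_add_right (Nat.mul_le_mul_left _ h2) _).trans hG
    have h4 : G * Pool.Agent.R85.GT.S6 tab E (x 0) (x 1) (x 2) (x 3) (x 4) (x 5) ≤ C :=
      (Nat.le_add_right _ _).trans h3
    have h5 : s ≤ C - G * Pool.Agent.R85.GT.S6 tab E (x 0) (x 1) (x 2) (x 3) (x 4) (x 5) +
        s * XL E MT x := by omega
    rw [Nat.cast_sub h5]
    push_cast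
    rw [Nat.cast_sub h4]
    push_cast
    ring
  simp only [h1] at hb
  rw [sum_add_distrib, sum_sub_distrib, sum_const, card_univ, Fintype.card_fun, Fintype.card_fin,
    nsmul_eq_mul, ← mul_sum, ← mul_sum] at hb
  have h4 : ∑ x : Fin 6 → V, ((Pool.Agent.R85.GT.S6 tab E (x 0) (x 1) (x 2) (x 3) (x 4) (x 5) : ℕ) : ℤ) =
      ((6 * (Fintype.card V * Pool.Agent.R85.GT.S5 tab E) : ℕ) : ℤ) := by
    rw [← Pool.Agent.R85.GT.sumS6, Nat.cast_sum]
  have h3 : (∑ x : Fin 6 → V, (XL E MT x : ℤ)) + (NT E : ℤ) ≤ (Fintype.card V : ℤ) ^ 6 := by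
    have h4 : ∑ x : Fin 6 → V, XL E MT x =
        ((univ : Finset (Fin 6 → V)).filter fun x => RelL E MT x).card := by
      rw [card_filter]; rfl
    have h5 : ((univ : Finset (Fin 6 → V)).filter fun x => RelL E MT x).card + NT E ≤
        Fintype.card V ^ 6 := by
      unfold NT
      have h6 := Finset.card_filter_add_card_filter_not (s := (univ : Finset (Fin 6 → V)))
        (fun x => RelL E MT x)
      rw [card_univ, Fintype.card_fun, Fintype.card_fin] at h6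
      rw [← h6]
      refine Nat.add_le_add_left (card_le_card ?_) _
      intro x hx
      rw [mem_filter] at hx ⊢
      exact ⟨mem_univ _, fun h => hx.2 (TT_of_rel hE h)⟩
    rw [← h4] at h5
    exact_mod_cast h5
  have h6 : (0 : ℤ) ≤ (s : ℤ) := by positivity
  have h7 := mul_le_mul_of_nonneg_left h3 h6
  rw [h4, hC] at hb
  push_cast at hb
  have h8 : (6 * (G : ℤ) * ((Fintype.card V : ℤ) * (Pool.Agent.R85.GT.S5 tab E : ℤ))) +
      (s : ℤ) * (NT E : ℤ) ≤ (R : ℤ) * (Fintype.card V : ℤ) ^ 6 := by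
    linarith
  exact_mod_cast h8

end

end Pool.Agent.R85.KF
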