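import Pool.Agent.R85.KF.Rep
import Pool.Agent.R85.KF.Slack
import Pool.Agent.TH773.ST.Defs

/-! Stability from the certificates with slack. -/

set_option autoImplicit false
set_option maxRecDepth 100000
set_option maxHeartbeats 4000000
open Finset
open scoped Classical

namespace Pool.Agent.R85.KF
open Pool.Agent.H122R2.N6 Pool.Agent.H37R3.Pen Pool.Agent.H37R3.K5 Pool.Agent.Y580.FL
open Pool.Agent.R85.GT (cd5 TE S5 NF sbn homs homs_eq code NF_eq_card sbn_le noninj el chkO chkO_NF
  L1 O32 NF_edge)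
open Pool.Agent.TH773.ST (NT Seeds bad seeds_card exists_col bad_le Rf)
open Pool.Agent.TH773

/-- the table `t` is `a` times (seven minus the number of triples) plus `b` times the number of
copies -/
def chkU (t : ℕ → ℕ) (a b L n : ℕ) : Bool := B2 fun b012 => B2 fun b013 => B2 fun b023 => B2 fun b123 => B2 fun b014 => B2 fun b024 => B2 fun b124 => B2 fun b034 => B2 fun b134 => B2 fun b234 =>
  or (five b012 b013 b023 b123 b014 b024 b124 b034 b134 b234)
    (Nat.beq (Nat.add (t (cd5 b012 b013 b023 b123 b014 b024 b124 b034 b134 b234))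
        (Nat.mul a (nsum 10 fun k => sbn (el L1 k) (cd5 b012 b013 b023 b123 b014 b024 b124 b034 b134 b234))))
      (Nat.add (Nat.mul 7 a)
        (Nat.mul b (nsum n fun k => sbn (el L k) (cd5 b012 b013 b023 b123 b014 b024 b124 b034 b134 b234)))))

theorem chkU_at {V : Type} {E : V → V → V → ℕ} (hE : Sy E) (hK : NoK4 E) {t : ℕ → ℕ}
    {a b L n : ℕ} (h : chkU t a b L n = true) (x0 x1 x2 x3 x4 : V) :
    TE t E x0 x1 x2 x3 x4 + a * ∑ k ∈ range 10, TE (sbn (el L1 k)) E x0 x1 x2 x3 x4 =
      7 * a + b * ∑ k ∈ range n, TE (sbn (el L k)) E x0 x1 x2 x3 x4 := by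
  have h1 := (B2_true (B2_true (B2_true (B2_true (B2_true (B2_true (B2_true (B2_true (B2_true (B2_true h (hE.b x0 x1 x2)) (hE.b x0 x1 x3)) (hE.b x0 x2 x3)) (hE.b x1 x2 x3)) (hE.b x0 x1 x4)) (hE.b x0 x2 x4)) (hE.b x1 x2 x4)) (hE.b x0 x3 x4)) (hE.b x1 x3 x4)) (hE.b x2 x3 x4))
  have h2 := Nat.eq_of_beq_eq_true (or_false_left h1 (five_false hK x0 x1 x2 x3 x4))
  rw [nsum_eq, nsum_eq] at h2
  exact h2

section
variable {V : Type} [Fintype V] {E : V → V → V → ℕ}

theorem S5_tabU (hE : Sy E) (hK : NoK4 E) {t : ℕ → ℕ} {a b L n r : ℕ}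
    (hO : chkO r L n = true) (h : chkU t a b L n = true) :
    S5 t E + a * (10 * NF E 32) = 7 * a * (Fintype.card V) ^ 5 + b * (n * NF E r) := by
  have h1 : ∑ k ∈ range 10, NF E (el L1 k) = 10 * NF E 32 := by
    rw [sum_congr rfl fun k hk => chkO_NF hE O32 (mem_range.mp hk), sum_const, card_range,
      smul_eq_mul]
  have h2 : ∑ k ∈ range n, NF E (el L k) = n * NF E r := by
    rw [sum_congr rfl fun k hk => chkO_NF hE hO (mem_range.mp hk), sum_const, card_range,
      smul_eq_mul]
  have h3 : ∑ _x : Fin 5 → V, 7 * a = 7 * a * (Fintype.card V) ^ 5 := by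
    rw [sum_const, card_univ, Fintype.card_fun, Fintype.card_fin, smul_eq_mul, mul_comm]
  rw [← h1, ← h2, ← h3]
  unfold NF S5
  rw [sum_comm, sum_comm (s := range n), mul_sum, mul_sum, ← sum_add_distrib, ← sum_add_distrib]
  exact sum_congr rfl fun x _ => chkU_at hE hK h _ _ _ _ _

/-- the number of bad triples, given the two inequalities: `D` is the number of missing copies,
suitably scaled -/
theorem stab_gen (hE : Sy E) (hK : NoK4 E) {D K : ℕ} (hn0 : 0 < Fintype.card V)
    (h1 : NT E ≤ K * (Fintype.card V * D))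
    (h2 : 1000 * NF E 32 ≤ 550 * (Fintype.card V) ^ 5 → (Fintype.card V) ^ 5 ≤ 645120 * K * D) :
    ∃ g : V → Fin 3, (Fintype.card V) ^ 2 * bad E g ≤ 645120 * K * D := by
  obtain ⟨g, hg⟩ := exists_col (E := E)
  refine ⟨g, ?_⟩
  have h3 := seeds_card hE hK
  have hb := bad_le (E := E) g
  rw [NF_edge hE] at h2
  generalize (∑ a, ∑ b, ∑ c, E a b c) = S at h2 h3
  generalize bad E g = b at hg hb ⊢
  generalize (Seeds E).card = q at hg h3
  generalize NT E = N at hg h1
  generalize Fintype.card V = n at hg h1 h2 h3 hb hn0 ⊢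
  by_cases hc : 1000 * (n ^ 2 * S) ≤ 550 * n ^ 5
  · refine le_trans ?_ (h2 hc)
    calc n ^ 2 * b ≤ n ^ 2 * n ^ 3 := Nat.mul_le_mul_left _ hb
      _ = n ^ 5 := by ring
  · push Not at hc
    have h4 : 5 * n ^ 5 ≤ 460800 * q := by
      have h5 : n * (550 * n ^ 5) < n * (1000 * (n ^ 2 * S)) := Nat.mul_lt_mul_of_pos_left hc hn0
      have h6 : n * (1000 * (n ^ 2 * S)) = 1000 * n ^ 3 * S := by ring
      have h7 : n * (550 * n ^ 5) = 550 * n ^ 6 := by ring
      rw [h6, h7] at h5
      have h8 : n * (5 * n ^ 5) ≤ n * (460800 * q) := by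
        calc n * (5 * n ^ 5) = 5 * n ^ 6 := by ring
          _ ≤ 460800 * (q * n) := by omega
          _ = n * (460800 * q) := by ring
      exact Nat.le_of_mul_le_mul_left h8 hn0
    have h9 : (5 * n ^ 3) * (n ^ 2 * b) ≤ (5 * n ^ 3) * (645120 * K * D) := by
      calc (5 * n ^ 3) * (n ^ 2 * b) = (5 * n ^ 5) * b := by ring
        _ ≤ (460800 * q) * b := Nat.mul_le_mul_right _ h4
        _ = 460800 * (q * b) := by ring
        _ ≤ 460800 * (7 * (N * n ^ 2)) := Nat.mul_le_mul_left _ hg
        _ ≤ 460800 * (7 * ((K * (n * D)) * n ^ 2)) := by gcongr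
        _ = (5 * n ^ 3) * (645120 * K * D) := by ring
    exact Nat.le_of_mul_le_mul_left h9 (by positivity)

end

section
variable {n : ℕ}

theorem tri_iff {H : Finset (Finset (Fin n))} {a b c : Fin n} :
    tri H a b c = 1 ↔ ({a, b, c} : Finset (Fin n)) ∈ H := by
  rw [Pool.Agent.R85.GT.tri_eq]
  split_ifs with h <;> simp [h]

theorem univ_turan : ∀ g : Fin 3 → Fin 3, (univ : Finset (Fin 3)) ∈ Turan34.turan g ↔
    Rf (g 0) (g 1) (g 2) = 1 := by
  decide +kernel

theorem mem_turan_comp {m : ℕ} (g : Fin n → Fin 3) (f : Fin m → Fin n)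
    (hf : Function.Injective f) (t : Finset (Fin m)) :
    t.image f ∈ Turan34.turan g ↔ t ∈ Turan34.turan (g ∘ f) := by
  unfold Turan34.turan
  have e : ∀ p, ((t.image f).filter fun i => g i = p).card =
      (t.filter fun i => (g ∘ f) i = p).card := by
    intro p
    rw [filter_image, card_image_of_injective _ hf]
    rfl
  rw [mem_filter, mem_filter, mem_powersetCard, mem_powersetCard, card_image_of_injective _ hf]
  simp only [e, subset_univ, true_and, mem_image, exists_exists_and_eq_and, Function.comp]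

theorem mem_turan {g : Fin n → Fin 3} {a b c : Fin n} (hab : a ≠ b) (hac : a ≠ c) (hbc : b ≠ c) :
    ({a, b, c} : Finset (Fin n)) ∈ Turan34.turan g ↔ Rf (g a) (g b) (g c) = 1 := by
  have hf : Function.Injective ![a, b, c] := by
    intro i j h
    fin_cases i <;> fin_cases j <;> simp_all
  have h1 : ({a, b, c} : Finset (Fin n)) = (univ : Finset (Fin 3)).image ![a, b, c] := by
    ext v
    simp only [mem_insert, mem_singleton, mem_image, mem_univ, true_and, Fin.exists_fin_succ]
    simp [eq_comm]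
  rw [h1, mem_turan_comp g _ hf, univ_turan]
  rfl

theorem turan_card {g : Fin n → Fin 3} {e : Finset (Fin n)} (he : e ∈ Turan34.turan g) :
    e.card = 3 := (mem_powersetCard.mp (mem_filter.mp he).1).2

/-- the distance to Turán's construction -/
theorem six_symm_le {H : Finset (Finset (Fin n))} (hH : ∀ e ∈ H, e.card = 3) (g : Fin n → Fin 3) :
    6 * (symmDiff H (Turan34.turan g)).card ≤ bad (tri H) g := by
  have hD : ∀ e ∈ symmDiff H (Turan34.turan g), e.card = 3 := by
    intro e he
    rw [mem_symmDiff] at he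
    rcases he with he | he
    exacts [hH e he.1, turan_card he.1]
  refine (six_card_le hD).trans ?_
  have e1 : ∑ a, ∑ b, ∑ c, tri (symmDiff H (Turan34.turan g)) a b c =
      ((univ : Finset (Fin n × Fin n × Fin n)).filter fun t =>
        ({t.1, t.2.1, t.2.2} : Finset (Fin n)) ∈ symmDiff H (Turan34.turan g)).card := by
    rw [Finset.card_filter, Fintype.sum_prod_type]
    refine sum_congr rfl fun a _ => ?_
    rw [Fintype.sum_prod_type]
    refine sum_congr rfl fun b _ => sum_congr rfl fun c _ => ?_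
    rw [Pool.Agent.R85.GT.tri_eq]
  rw [e1]
  unfold bad
  refine card_le_card_of_injOn (fun p => ![p.1, p.2.1, p.2.2]) ?_ ?_
  · rintro ⟨a, b, c⟩ hp
    have hp' : ({a, b, c} : Finset (Fin n)) ∈ symmDiff H (Turan34.turan g) :=
      (mem_filter.mp (mem_coe.mp hp)).2
    refine mem_coe.mpr (mem_filter.mpr ⟨mem_univ _, ?_⟩)
    have h3 := hD _ hp'
    have hab : a ≠ b := by
      rintro rfl
      have : ({a, a, c} : Finset (Fin n)).card ≤ 2 := by
        rw [insert_eq_of_mem (mem_insert_self _ _)]; exact card_le_two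
      omega
    have hac : a ≠ c := by
      rintro rfl
      have : ({a, b, a} : Finset (Fin n)).card ≤ 2 := by
        rw [insert_comm, insert_eq_of_mem (mem_singleton_self _)]; exact card_le_two
      omega
    have hbc : b ≠ c := by
      rintro rfl
      have : ({a, b, b} : Finset (Fin n)).card ≤ 2 := by
        rw [insert_eq_of_mem (mem_singleton_self b)]; exact card_le_two
      omega
    change tri H a b c ≠ Rf (g a) (g b) (g c)
    have hm := mem_turan (g := g) hab hac hbc
    rw [mem_symmDiff, hm] at hp'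
    have ht : tri H a b c = 1 ↔ ({a, b, c} : Finset (Fin n)) ∈ H := tri_iff
    intro h
    rcases hp' with ⟨h1, h2⟩ | ⟨h1, h2⟩
    · rw [← ht, h] at h1; exact h2 h1
    · rw [← ht, h] at h2; exact h2 h1
  · rintro ⟨a, b, c⟩ _ ⟨a', b', c'⟩ _ h
    have h0 := congrFun h 0
    have h1 := congrFun h 1
    have h2 := congrFun h 2
    simp only [Matrix.cons_val_zero, Matrix.cons_val_one, Matrix.cons_val] at h0 h1 h2
    rw [h0, h1, h2]

end

end Pool.Agent.R85.KF
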